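import Pool.Agent.Lib.MP_1211f9_al.BK.Defs

/-! Campaign BK (MP_1211f9_al), task B0: basic facts on distances and squares -/

set_option autoImplicit false

namespace Pool.Agent.Lib.MP_1211f9_al.BK

open Relation

variable {V : Type*} {X : SimpleGraph V}

theorem dist_le_succ (hX : X.Connected) (x : V) {u v : V} (h : X.Adj u v) :
    X.dist x u ≤ X.dist x v + 1 := by
  have h1 := hX.dist_triangle (u := x) (v := v) (w := u)
  have h2 : X.dist v u = 1 := SimpleGraph.dist_eq_one_iff_adj.2 h.symm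
  omega

theorem exists_mid (hX : X.Connected) {x y : V} {a b : ℕ} (h : X.dist x y = a + b) :
    ∃ w, X.dist x w = a ∧ X.dist w y = b := by
  obtain ⟨p, hp⟩ := hX.exists_walk_length_eq_dist x y
  have h1 : X.dist x (p.getVert a) ≤ a := by
    refine (SimpleGraph.dist_le (p.take a)).trans ?_
    rw [SimpleGraph.Walk.take_length]
    exact min_le_left _ _
  have h2 : X.dist (p.getVert a) y ≤ b := by
    refine (SimpleGraph.dist_le (p.drop a)).trans ?_
    rw [SimpleGraph.Walk.drop_length]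
    omega
  have h3 := hX.dist_triangle (u := x) (v := p.getVert a) (w := y)
  exact ⟨p.getVert a, by omega, by omega⟩

/-- A neighbour of `y` one step closer to `x`. -/
theorem exists_closer (hX : X.Connected) {x y : V} {k : ℕ} (h : X.dist x y = k + 1) :
    ∃ w, X.Adj y w ∧ X.dist x w = k := by
  obtain ⟨w, h1, h2⟩ := exists_mid hX h
  exact ⟨w, (SimpleGraph.dist_eq_one_iff_adj.1 h2).symm, h1⟩

theorem dist_two (hX : X.Connected) {u v w : V} (h1 : X.Adj u w) (h2 : X.Adj w v) (hne : u ≠ v)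
    (hna : ¬ X.Adj u v) : X.dist u v = 2 := by
  have h3 := dist_le_succ hX u h2.symm
  have h4 : X.dist u w = 1 := SimpleGraph.dist_eq_one_iff_adj.2 h1
  have h5 : X.dist u v ≠ 0 := by
    rw [Ne, hX.dist_eq_zero_iff]
    exact hne
  have h6 : X.dist u v ≠ 1 := fun h => hna (SimpleGraph.dist_eq_one_iff_adj.1 h)
  omega

theorem sq_rot {a b c d : V} (h : Sq X a b c d) : Sq X b c d a := by
  obtain ⟨h1, h2, h3, h4, h5, h6, h7, h8⟩ := h
  exact ⟨h2, h3, h4, h1, h6, h5.symm, h8, fun h => h7 h.symm⟩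

theorem sq_flip {a b c d : V} (h : Sq X a b c d) : Sq X a d c b := by
  obtain ⟨h1, h2, h3, h4, h5, h6, h7, h8⟩ := h
  exact ⟨h4.symm, h3.symm, h2.symm, h1.symm, h5, h6.symm, h7, fun h => h8 h.symm⟩

end Pool.Agent.Lib.MP_1211f9_al.BK
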