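import Mathlib

/-!
# Campaign BK (MP_1211f9_al): bucolic complexes

`X : SimpleGraph V` is the 1-skeleton, `X.dist` the graph distance.
-/

set_option autoImplicit false

namespace Pool.Agent.Lib.MP_1211f9_al.BK

open Relation

section
variable {V : Type*}

/-- Triangle condition. -/
def TC (X : SimpleGraph V) : Prop :=
  ∀ (x u v : V) (k : ℕ), X.dist x u = k + 1 → X.dist x v = k + 1 → X.Adj u v →
    ∃ w, X.Adj w u ∧ X.Adj w v ∧ X.dist x w = k

/-- Quadrangle condition. -/
def QC (X : SimpleGraph V) : Prop :=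
  ∀ (x z u v : V) (k : ℕ), X.dist x z = k + 2 → X.dist x u = k + 1 → X.dist x v = k + 1 →
    X.Adj z u → X.Adj z v → u ≠ v → ¬ X.Adj u v →
    ∃ w, X.Adj w u ∧ X.Adj w v ∧ X.dist x w = k

/-- `a, b, c, d` is an induced square (cycle `a ~ b ~ c ~ d ~ a` without diagonals). -/
def Sq (X : SimpleGraph V) (a b c d : V) : Prop :=
  X.Adj a b ∧ X.Adj b c ∧ X.Adj c d ∧ X.Adj d a ∧ a ≠ c ∧ b ≠ d ∧ ¬ X.Adj a c ∧ ¬ X.Adj b d

/-- Opposite vertices of an induced square have no third common neighbour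
(no induced `K_{2,3}`, `W_4`, `W_4^-`). -/
def FC (X : SimpleGraph V) : Prop :=
  ∀ a b c d z, Sq X a b c d → X.Adj z a → X.Adj z c → z = b ∨ z = d

/-- Bucolic graphs: connected, weakly modular, no induced `K_{2,3}`, `W_4`, `W_4^-`. -/
structure Bucolic (X : SimpleGraph V) : Prop where
  conn : X.Connected
  tc : TC X
  qc : QC X
  fc : FC X

/-- Gated sets. -/
def Gated (X : SimpleGraph V) (H : Set V) : Prop :=
  ∀ y, ∃ p ∈ H, ∀ h ∈ H, X.dist y h = X.dist y p + X.dist p h

open Classical in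
/-- The gate of `y` in `H` (`y` itself if there is none). -/
noncomputable def gate (X : SimpleGraph V) (H : Set V) (y : V) : V :=
  if h : ∃ p ∈ H, ∀ h ∈ H, X.dist y h = X.dist y p + X.dist p h then h.choose else y

/-- Every vertex with two distinct neighbours in `H` lies in `H`. -/
def NbrClosed (X : SimpleGraph V) (H : Set V) : Prop :=
  ∀ y a b, a ∈ H → b ∈ H → a ≠ b → X.Adj y a → X.Adj y b → y ∈ H

/-- `H` is connected. -/
def SetConn (X : SimpleGraph V) (H : Set V) : Prop :=
  ∀ a ∈ H, ∀ b ∈ H, ReflTransGen (fun u v => X.Adj u v ∧ u ∈ H ∧ v ∈ H) a b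

/-- No induced square inside `H`. -/
def NoSqIn (X : SimpleGraph V) (H : Set V) : Prop :=
  ∀ a b c d, a ∈ H → b ∈ H → c ∈ H → d ∈ H → ¬ Sq X a b c d

/-- A step inside `H`, at distance at most `M` from `z`. -/
def LStep (X : SimpleGraph V) (H : Set V) (z : V) (M : ℕ) (u v : V) : Prop :=
  X.Adj u v ∧ u ∈ H ∧ v ∈ H ∧ X.dist z u ≤ M ∧ X.dist z v ≤ M

/-- A step in the link (neighbourhood) of `v`. -/
def LinkStep (X : SimpleGraph V) (v a b : V) : Prop :=
  X.Adj a b ∧ X.Adj v a ∧ X.Adj v b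

/-- Elementary step of darts: turn around the source inside a triangle, or flip. -/
def GStep (X : SimpleGraph V) (p q : V × V) : Prop :=
  X.Adj p.1 p.2 ∧ ((q.1 = p.1 ∧ X.Adj q.1 q.2 ∧ X.Adj p.2 q.2) ∨ (q.1 = p.2 ∧ q.2 = p.1))

/-- The vertices of the germ class of the dart `p`. -/
def Cop (X : SimpleGraph V) (p : V × V) : Set V := {u | ∃ x, ReflTransGen (GStep X) p (u, x)}

/-- Turn inside the component of the link, or flip between vertices of level at most `M`. -/
def RStep (X : SimpleGraph V) (z : V) (M : ℕ) (p q : V × V) : Prop :=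
  X.Adj p.1 p.2 ∧ ((q.1 = p.1 ∧ ReflTransGen (LinkStep X p.1) p.2 q.2) ∨
    (q.1 = p.2 ∧ q.2 = p.1 ∧ X.dist z p.1 ≤ M ∧ X.dist z p.2 ≤ M))

/-- Elementary step of edges: flip, two edges of a triangle, opposite edges of an induced square. -/
def EStep (X : SimpleGraph V) (p q : V × V) : Prop :=
  (q.1 = p.2 ∧ q.2 = p.1) ∨ (q.1 = p.1 ∧ X.Adj p.2 q.2) ∨ Sq X p.1 p.2 q.2 q.1

/-- The classes of edges. -/
def Cls (X : SimpleGraph V) : Type _ :=
  Quot (fun d e : X.Dart => EStep X (d.fst, d.snd) (e.fst, e.snd))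

/-- The class of the edge `uv`. -/
def cl (X : SimpleGraph V) (u v : V) (h : X.Adj u v) : Cls X := Quot.mk _ ⟨(u, v), h⟩

/-- A chosen edge of the class `i`, its two end points. -/
noncomputable def src (X : SimpleGraph V) (i : Cls X) : V := (Quot.out i).fst

/-- See `src`. -/
noncomputable def tgt (X : SimpleGraph V) (i : Cls X) : V := (Quot.out i).snd

/-- The chosen gated subgraph of the class `i`. -/
noncomputable def CC (X : SimpleGraph V) (i : Cls X) : Set V := Cop X (src X i, tgt X i)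

/-- The gate map to `CC X i`. -/
noncomputable def rho (X : SimpleGraph V) (i : Cls X) (x : V) : V := gate X (CC X i) x

/-- `x` and `y` are in the same sector of the class `i`. -/
def Sec (X : SimpleGraph V) (i : Cls X) (x y : V) : Prop := rho X i x = rho X i y

/-- The number of steps of class `i` between `x` and `y`. -/
noncomputable def NN (X : SimpleGraph V) (i : Cls X) (x y : V) : ℕ :=
  X.dist (rho X i x) (rho X i y)

/-- The classes separating `x` and `y`. -/
def Sep (X : SimpleGraph V) (x y : V) : Set (Cls X) := {i | ¬ Sec X i x y}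

/-- The end points of the edges of the class `i`. -/
def End (X : SimpleGraph V) (i : Cls X) : Set V := {u | ∃ (v : V) (h : X.Adj u v), cl X u v h = i}

/-- Some induced square has adjacent edges of the classes `i` and `j`. -/
def Cross (X : SimpleGraph V) (i j : Cls X) : Prop :=
  ∃ (a b c d : V) (h : Sq X a b c d), cl X a b h.1 = i ∧ cl X a d h.2.2.2.1.symm = j

/-- The action by graph automorphisms. -/
def ActsBy (X : SimpleGraph V) (G : Type*) [Group G] [MulAction G V] : Prop :=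
  ∀ (g : G) (u v : V), X.Adj u v → X.Adj (g • u) (g • v)

/-- The action on the classes. -/
def gcl {X : SimpleGraph V} {G : Type*} [Group G] [MulAction G V] (hact : ActsBy X G) (g : G) :
    Cls X → Cls X :=
  Quot.map (fun d => ⟨(g • d.fst, g • d.snd), hact g _ _ d.adj⟩) (by
    intro d e h
    have hinj : ∀ a b : V, a ≠ b → g • a ≠ g • b := fun a b hab h => hab (smul_left_cancel g h)
    have hadj : ∀ a b : V, ¬ X.Adj a b → ¬ X.Adj (g • a) (g • b) := by
      intro a b hab h
      have := hact g⁻¹ _ _ h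
      rw [inv_smul_smul, inv_smul_smul] at this
      exact hab this
    rcases h with h | h | h
    · left
      exact ⟨congrArg (g • ·) h.1, congrArg (g • ·) h.2⟩
    · right; left
      exact ⟨congrArg (g • ·) h.1, hact g _ _ h.2⟩
    · right; right
      obtain ⟨h1, h2, h3, h4, h5, h6, h7, h8⟩ := h
      exact ⟨hact g _ _ h1, hact g _ _ h2, hact g _ _ h3, hact g _ _ h4, hinj _ _ h5, hinj _ _ h6,
        hadj _ _ h7, hadj _ _ h8⟩)

end

/-! ## The abstract part -/

/-- Abstract walls: `S i x y`: same sector of `i`; `E i`: end points of `i`; `Cr`: crossing. -/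
structure WS (G V I : Type*) [Group G] [MulAction G V] [MulAction G I] where
  S : I → V → V → Prop
  E : I → Set V
  Cr : I → I → Prop
  S_equiv : ∀ i, Equivalence (S i)
  S_fin : ∀ x y, {i | ¬ S i x y}.Finite
  E_ne : ∀ i, (E i).Nonempty
  Cr_symm : ∀ i j, Cr i j → Cr j i
  Cr_E : ∀ i j, Cr i j → (E i ∩ E j).Nonempty
  np1 : ∀ i j, i ≠ j → ¬ Cr i j → ∀ u ∈ E j, ∀ v ∈ E j, S i u v
  np2 : ∀ i j, i ≠ j → ¬ Cr i j → ∀ v, ∀ u ∈ E j, ∀ w ∈ E i, S i v u ∨ S j v w
  S_act : ∀ (g : G) i x y, S i x y → S (g • i) (g • x) (g • y)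
  E_act : ∀ (g : G) i x, x ∈ E i → g • x ∈ E (g • i)
  Cr_act : ∀ (g : G) i j, Cr i j → Cr (g • i) (g • j)
  inter : ∀ (x h : V) (U : Finset I), ∃ y, (∀ i ∈ U, S i y h) ∧
    ∀ z, (∀ i ∈ U, S i z h) → ∀ i, S i x z → S i x y

/-- The classes separating `x` and `y`. -/
def WS.sep {G V I : Type*} [Group G] [MulAction G V] [MulAction G I] (W : WS G V I) (x y : V) :
    Set I := {i | ¬ W.S i x y}

/-- `i < j` between `x` and `y`. -/
def WS.Lt {G V I : Type*} [Group G] [MulAction G V] [MulAction G I] (W : WS G V I) (x y : V)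
    (i j : I) : Prop :=
  i ≠ j ∧ ¬ W.Cr i j ∧ (∀ u ∈ W.E i, W.S j x u) ∧ (∀ w ∈ W.E j, W.S i y w)

/-- No `D + 1` pairwise crossing classes. -/
def WS.Dim {G V I : Type*} [Group G] [MulAction G V] [MulAction G I] (W : WS G V I) (D : ℕ) : Prop :=
  ∀ A : Finset I, (∀ i ∈ A, ∀ j ∈ A, i ≠ j → W.Cr i j) → A.card ≤ D

/-- Local ellipticity. -/
def WS.Ell {G V I : Type*} [Group G] [MulAction G V] [MulAction G I] (W : WS G V I) : Prop :=
  ∀ (g : G) (x : V), ∃ R : ℕ, ∀ n : ℕ, (W.sep x (g ^ n • x)).ncard ≤ R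

end Pool.Agent.Lib.MP_1211f9_al.BK
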