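import Pool.Agent.Lib.MP_1211f9_al.BK.B0

/-! Campaign BK (MP_1211f9_al), task Y0: wheels -/

set_option autoImplicit false

namespace Pool.Agent.Lib.MP_1211f9_al.BK

open Relation

variable {V : Type*} {X : SimpleGraph V}

/-- No induced wheel with five spokes. -/
def NoWheel5 (X : SimpleGraph V) : Prop :=
  ∀ (a : Fin 5 → V) (z : V), Function.Injective a → (∀ i, X.Adj z (a i)) →
    ¬ ∀ i j, X.Adj (a i) (a j) ↔ (j = i + 1 ∨ i = j + 1)

/-- No induced wheel with six spokes. -/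
def NoWheel6 (X : SimpleGraph V) : Prop :=
  ∀ (a : Fin 6 → V) (z : V), Function.Injective a → (∀ i, X.Adj z (a i)) →
    ¬ ∀ i j, X.Adj (a i) (a j) ↔ (j = i + 1 ∨ i = j + 1)

/-- PROOF. Suppose `a 0, .., a 4` is an induced five-cycle. `d(a 0, a 2) = d(a 0, a 3) = 2` and `a 2 ~ a 3`: TC from `a 0` gives `x ~ a 2, a 3` with `d(a 0, x) = 1`. `x ~ a 1`: otherwise `Sq X (a 0) (a 1) (a 2) x` (`a 0, a 2` not adjacent; `x ≠ a 1` since `a 1` is not adjacent to `a 3`). In the same way `x ~ a 4` (square `a 0, a 4, a 3, x`). So `x` is the hub of a wheel. -/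
theorem noC5_of_noWheel5 (hX : X.Connected) (htc : TC X) (hS : ∀ a b c d, ¬ Sq X a b c d)
    (h5 : NoWheel5 X) (a : Fin 5 → V) (ha : Function.Injective a) :
    ¬ ∀ i j, X.Adj (a i) (a j) ↔ (j = i + 1 ∨ i = j + 1) := by
  intro hc
  have h01 : X.Adj (a 0) (a 1) := (hc 0 1).2 (by decide)
  have h12 : X.Adj (a 1) (a 2) := (hc 1 2).2 (by decide)
  have h23 : X.Adj (a 2) (a 3) := (hc 2 3).2 (by decide)
  have h34 : X.Adj (a 3) (a 4) := (hc 3 4).2 (by decide)
  have h40 : X.Adj (a 4) (a 0) := (hc 4 0).2 (by decide)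
  have n02 : ¬ X.Adj (a 0) (a 2) := fun h => absurd ((hc 0 2).1 h) (by decide)
  have n03 : ¬ X.Adj (a 0) (a 3) := fun h => absurd ((hc 0 3).1 h) (by decide)
  have n13 : ¬ X.Adj (a 1) (a 3) := fun h => absurd ((hc 1 3).1 h) (by decide)
  have n24 : ¬ X.Adj (a 2) (a 4) := fun h => absurd ((hc 2 4).1 h) (by decide)
  have e02 : a 0 ≠ a 2 := fun h => absurd (ha h) (by decide)
  have e03 : a 0 ≠ a 3 := fun h => absurd (ha h) (by decide)
  have d02 : X.dist (a 0) (a 2) = 1 + 1 := dist_two hX h01 h12 e02 n02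
  have d03 : X.dist (a 0) (a 3) = 1 + 1 := dist_two hX h40.symm h34.symm e03 n03
  obtain ⟨x, hx2, hx3, hx0⟩ := htc (a 0) (a 2) (a 3) 1 d02 d03 h23
  have hx : X.Adj (a 0) x := SimpleGraph.dist_eq_one_iff_adj.1 hx0
  have hx1 : X.Adj (a 1) x := by
    by_contra hn
    refine hS (a 0) (a 1) (a 2) x ⟨h01, h12, hx2.symm, hx.symm, e02, ?_, n02, hn⟩
    intro h
    exact n13 (h ▸ hx3)
  have hx4 : X.Adj (a 4) x := by
    by_contra hn
    refine hS (a 0) (a 4) (a 3) x ⟨h40.symm, h34.symm, hx3.symm, hx.symm, e03, ?_, n03, hn⟩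
    intro h
    exact n24 (h ▸ hx2).symm
  refine h5 a x ha ?_ hc
  intro i
  fin_cases i
  · exact hx.symm
  · exact hx1.symm
  · exact hx2
  · exact hx3
  · exact hx4.symm

end Pool.Agent.Lib.MP_1211f9_al.BK
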