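import Pool.Agent.Lib.MP_1211f9_al.Mg.G003
import Pool.Agent.Lib.MP_1211f9_al.Mg.G002
import Pool.Agent.Lib.MP_1211f9_al.Mg.G004
import Pool.Agent.Lib.MP_1211f9_al.N2
import Pool.Agent.Lib.MP_1211f9_al.N4
import Pool.Agent.Lib.MP_1211f9_al.Z3

/-! Campaign BK (MP_1211f9_al), F1: the pieces are systolic if there are no wheels -/

set_option autoImplicit false

namespace Pool.Agent.Lib.MP_1211f9_al.BK

variable {V : Type*} {X : SimpleGraph V} {G : Type*} [Group G] [MulAction G V]

theorem induce_noWheel5 {C : Set V} (h : NoWheel5 X) : NoWheel5 (X.induce C) := by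
  intro a z ha hz h'
  exact h (fun i => (a i : V)) z (fun i j hij => ha (Subtype.ext hij)) hz h'

theorem induce_noWheel6 {C : Set V} (h : NoWheel6 X) : NoWheel6 (X.induce C) := by
  intro a z ha hz h'
  exact h (fun i => (a i : V)) z (fun i j hij => ha (Subtype.ext hij)) hz h'

/-- The pieces are bridged if there are no induced 5-wheels. -/
theorem piece_bridged (hX : Bucolic X) (h5 : NoWheel5 X) {C : Set V} (hC : Gated X C)
    (hS : NoSqIn X C) : Bridged (X.induce C) := by
  have hconn := induce_conn hX.conn hC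
  have htc := induce_tc hX hC
  have hqc := induce_qc hX hC
  have hsq := induce_noSq hS
  refine bridged_of_noIsometricCycle hconn fun n hn c => ?_
  exact no_iso_cycle hconn htc hqc hsq
    (noC5_of_noWheel5 hconn htc hsq (induce_noWheel5 h5)) n hn c

theorem piece_noHexagon (hX : Bucolic X) (h5 : NoWheel5 X) (h6 : NoWheel6 X) {C : Set V}
    (hC : Gated X C) (hS : NoSqIn X C) : NoHexagon (X.induce C) := by
  have hconn := induce_conn hX.conn hC
  have htc := induce_tc hX hC
  have hqc := induce_qc hX hC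
  have hsq := induce_noSq hS
  intro a ha
  exact noHexagon_of_noWheel6 hconn hqc hsq
    (noC5_of_noWheel5 hconn htc hsq (induce_noWheel5 h5)) (induce_noWheel6 h6) a ha

/-- A point of bounded orbit for every element gives bounded orbits of all points. -/
theorem ell_all (hX : X.Connected) (hact : ActsBy X G)
    (hell : ∀ g : G, ∃ (x : V) (R : ℕ), ∀ n : ℕ, X.dist x (g ^ n • x) ≤ R) (g : G) (x : V) :
    ∃ R : ℕ, ∀ n : ℕ, X.dist x (g ^ n • x) ≤ R := by
  obtain ⟨y, R, hR⟩ := hell g
  refine ⟨2 * X.dist x y + R, fun n => ?_⟩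
  have h1 := hX.dist_triangle (u := x) (v := y) (w := g ^ n • x)
  have h2 := hX.dist_triangle (u := y) (v := g ^ n • y) (w := g ^ n • x)
  have h3 := dist_smul_le hX hact (g ^ n) y x
  have h4 := hR n
  rw [SimpleGraph.dist_comm (u := y) (v := x)] at h3
  omega

/-- The structure theorem and its consequences. -/
theorem main (hX : Bucolic X) {D : ℕ}
    (hD : ∀ f : (Fin (D + 1) → Bool) → V, ¬ ∀ a b, X.dist (f a) (f b) = hammingDist a b)
    (hact : ActsBy X G) (hG : Group.FG G)
    (hell : ∀ (g : G) (x : V), ∃ R : ℕ, ∀ n : ℕ, X.dist x (g ^ n • x) ≤ R)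
    (h5 : NoWheel5 X)
    (h : NoWheel6 X ∨ (Hyperbolic X ∧ ∀ S : Set V, X.IsClique S → S.Finite)) :
    ∀ x : V, ∃ R : ℕ, ∀ g : G, X.dist x (g • x) ≤ R := by
  obtain ⟨H, k, C, act, hfin, hC, hadj, hel, hiff⟩ := structure_thm hX hD hact hG hell
  refine hiff.1 fun j c => ?_
  have hconn := induce_conn hX.conn (hC j).1
  have hdist := induce_dist hX.conn (hC j).1
  have hbr := piece_bridged hX h5 (hC j).1 (hC j).2
  have hHfg : Group.FG H := by
    have := hG
    have := hfin
    infer_instance
  obtain ⟨T, hT⟩ := Group.fg_def.mp hHfg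
  let _ := act j
  have hact' : ∀ (g : H) (u v : C j), (X.induce (C j)).Adj u v →
      (X.induce (C j)).Adj (g • u) (g • v) := fun g u v huv => hadj j g u v huv
  have key : (∀ x : C j, ∃ R, ∀ g : H, (X.induce (C j)).dist x (g • x) ≤ R) ∨
      ∃ (g : H) (x : C j), ∀ n : ℕ, n ≤ (X.induce (C j)).dist x (g ^ n • x) := by
    rcases h with h6 | ⟨⟨k', hk'⟩, hcl⟩
    · exact main_seven_all hbr (piece_noHexagon hX h5 h6 (hC j).1 (hC j).2) hact' hT
    · have hfour : FourPoint (X.induce (C j)) k' := by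
        intro a b c d
        rw [hdist, hdist, hdist, hdist, hdist, hdist]
        exact hk' a b c d
      refine main_all hbr hfour hact' hT (Or.inl fun t _ => Or.inr fun S hS => ?_)
      have h1 : X.IsClique (Subtype.val '' S) := by
        rintro _ ⟨a, ha, rfl⟩ _ ⟨b, hb, rfl⟩ hab
        exact hS ha hb fun h => hab (congrArg Subtype.val h)
      exact Set.Finite.of_finite_image (hcl _ h1) Subtype.val_injective.injOn
  rcases key with h1 | ⟨g, x, hx⟩
  · obtain ⟨R, hR⟩ := h1 c
    refine ⟨R, fun g => ?_⟩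
    have h2 := hR g
    rw [hdist] at h2
    exact h2
  · obtain ⟨R, hR⟩ := hel j g x
    have h2 := hx (R + 1)
    rw [hdist] at h2
    have h3 := hR (R + 1)
    exact absurd (h2.trans h3) (by omega)

end Pool.Agent.Lib.MP_1211f9_al.BK
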